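import Pool.Graph.R_pool_sql_team_seeded_2aa45f1a.Results.MP_a5b85f_al.SylowTwo
import Pool.Graph.R_pool_sql_team_seeded_3997aac3.Results.MP_a5b85f_al.SylowThree

/-!
# Sylow 2- and 3-subgroups of semi-rational groups: every finite group lies in a counterexample

For `p = 2` and for `p = 3`, every finite group embeds in a finite uniformly semi-rational group all
of whose Sylow `p`-subgroups are not semi-rational.  The ambient group is the direct product of a
fixed group (one of the two counterexamples of earlier runs) with a symmetric group.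

More generally, if `G` is finite and semi-rational (uniformly semi-rational), has a Sylow
`p`-subgroup that is not semi-rational, and `H` is any finite rational group, then `G × H` is
semi-rational (uniformly semi-rational) and no Sylow `p`-subgroup of `G × H` is semi-rational.
-/

set_option autoImplicit false

namespace Pool.Agent.Results.MP_a5b85f_al.EveryFiniteGroup

open Subgroup Equiv Equiv.Perm

/-- `H` is semi-rational: for every `x` there is an integer `m` such that every generator `y` of the
cyclic subgroup generated by `x` is conjugate in `H` to `x` or to `x ^ m`. -/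
def SemiRational (H : Type) [Group H] : Prop :=
  ∀ x : H, ∃ m : ℤ, ∀ y : H, zpowers y = zpowers x → IsConj y x ∨ IsConj y (x ^ m)

/-- `H` is uniformly semi-rational: there is one integer `m` such that, for every `x`, every
generator `y` of the cyclic subgroup generated by `x` is conjugate in `H` to `x` or to `x ^ m`. -/
def UniformlySemiRational (H : Type) [Group H] : Prop :=
  ∃ m : ℤ, ∀ x y : H, zpowers y = zpowers x → IsConj y x ∨ IsConj y (x ^ m)

/-- `H` is rational: every generator of the cyclic subgroup generated by `x` is conjugate in `H`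
to `x`. -/
def Rational (H : Type) [Group H] : Prop :=
  ∀ x y : H, zpowers y = zpowers x → IsConj y x

theorem UniformlySemiRational.semiRational {H : Type} [Group H] (h : UniformlySemiRational H) :
    SemiRational H := by
  obtain ⟨m, hm⟩ := h
  exact fun x => ⟨m, hm x⟩

/-- generators of a finite cyclic group -/
theorem gen {H : Type} [Group H] [Finite H] {x y : H} (h : zpowers y = zpowers x) :
    ∃ j : ℕ, y = x ^ j ∧ Nat.Coprime j (orderOf x) := by
  obtain ⟨j, rfl⟩ := (mem_powers_iff_mem_zpowers (x := x) (y := y)).2 (h ▸ mem_zpowers y)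
  refine ⟨j, rfl, ?_⟩
  have ho : orderOf (x ^ j) = orderOf x := by
    change orderOf ((fun n : ℕ => x ^ n) j) = _
    rw [← Nat.card_zpowers, h, Nat.card_zpowers]
  rw [orderOf_pow] at ho
  exact Nat.Coprime.symm ((Nat.div_eq_self.1 ho).resolve_left (orderOf_pos x).ne')

theorem gen' {H : Type} [Group H] {x : H} {j : ℕ} (h : Nat.Coprime j (orderOf x)) :
    zpowers (x ^ j) = zpowers x := by
  apply le_antisymm
  · rw [zpowers_le]
    exact Subgroup.pow_mem _ (mem_zpowers x) j
  · rw [zpowers_le]
    have := exists_pow_eq_self_of_coprime h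
    obtain ⟨m, hm⟩ := this
    have h2 := Subgroup.pow_mem _ (mem_zpowers (x ^ j)) m
    rwa [hm] at h2

/-- a cycle type is unchanged by powers prime to the order -/
theorem cycleType_pow {α : Type} [Fintype α] [DecidableEq α] (σ : Perm α) :
    ∀ n : ℕ, Nat.Coprime n (orderOf σ) → (σ ^ n).cycleType = σ.cycleType := by
  refine cycle_induction_on (fun σ : Perm α => ∀ n : ℕ, Nat.Coprime n (orderOf σ) →
    (σ ^ n).cycleType = σ.cycleType) σ ?_ ?_ ?_
  · intro n _
    rw [one_pow]
  · intro σ hσ n hn
    have h1 : (σ ^ n).IsCycle := hσ.pow_iff.2 hn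
    rw [h1.cycleType, hσ.cycleType, support_pow_coprime hn]
  · intro σ τ hd _ h1 h2 n hn
    have ho : orderOf (σ * τ) = Nat.lcm (orderOf σ) (orderOf τ) := hd.orderOf
    rw [ho] at hn
    have e : (σ * τ) ^ n = σ ^ n * τ ^ n := hd.commute.mul_pow n
    rw [e, (hd.pow_disjoint_pow n n).cycleType_mul, hd.cycleType_mul,
      h1 n (Nat.Coprime.coprime_dvd_right (Nat.dvd_lcm_left _ _) hn),
      h2 n (Nat.Coprime.coprime_dvd_right (Nat.dvd_lcm_right _ _) hn)]

/-- symmetric groups are rational -/
theorem rational_perm (α : Type) [Finite α] : Rational (Perm α) := by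
  classical
  have := Fintype.ofFinite α
  intro x y h
  obtain ⟨j, rfl, hj⟩ := gen h
  exact isConj_iff_cycleType_eq.2 (cycleType_pow x j hj)

/-- a residue can be corrected at the primes dividing it -/
theorem fix (N : ℕ) (hN : N ≠ 0) (m : ℕ) : ∃ k : ℕ, Nat.Coprime k N ∧
    ∀ o, o ∣ N → Nat.Coprime m o → k ≡ m [MOD o] := by
  classical
  have hpp : Set.Pairwise (N.primeFactors : Set ℕ)
      (Function.onFun Nat.Coprime fun p : ℕ => p ^ N.factorization p) := by
    intro p hp q hq hpq
    have h1 := Nat.prime_of_mem_primeFactors (Finset.mem_coe.1 hp)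
    have h2 := Nat.prime_of_mem_primeFactors (Finset.mem_coe.1 hq)
    exact Nat.Coprime.pow _ _ ((Nat.coprime_primes h1 h2).2 hpq)
  obtain ⟨k, hk⟩ := Nat.chineseRemainderOfFinset (fun p : ℕ => if p ∣ m then 1 else m)
    (fun p : ℕ => p ^ N.factorization p) N.primeFactors
    (fun p hp => pow_ne_zero _ (Nat.prime_of_mem_primeFactors hp).ne_zero) hpp
  refine ⟨k, ?_, ?_⟩
  · rw [Nat.coprime_iff_gcd_eq_one]
    by_contra hne
    obtain ⟨p, hp, hpd⟩ := Nat.exists_prime_and_dvd hne
    have hpk : p ∣ k := hpd.trans (Nat.gcd_dvd_left _ _)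
    have hpN : p ∣ N := hpd.trans (Nat.gcd_dvd_right _ _)
    have h1 := hk p (Nat.mem_primeFactors.2 ⟨hp, hpN, hN⟩)
    have h2 : p ∣ p ^ N.factorization p :=
      dvd_pow_self _ (hp.factorization_pos_of_dvd hN hpN).ne'
    have h3 : k ≡ (if p ∣ m then 1 else m) [MOD p] := h1.of_dvd h2
    have h4 : p ∣ (if p ∣ m then 1 else m) := (h3.dvd_iff (dvd_refl p)).1 hpk
    split_ifs at h4 with h5
    · exact hp.one_lt.ne' (Nat.dvd_one.1 h4)
    · exact h5 h4
  · intro o ho hm
    rw [Nat.modEq_iff_dvd]
    have ho0 : o ≠ 0 := ne_zero_of_dvd_ne_zero hN ho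
    rw [Int.natCast_dvd, Nat.dvd_iff_prime_pow_dvd_dvd]
    intro p i hp hpi
    rw [← Int.natCast_dvd, ← Nat.modEq_iff_dvd]
    rcases Nat.eq_zero_or_pos i with rfl | hi
    · rw [pow_zero]
      exact Nat.modEq_one
    · have hpo : p ∣ o := (dvd_pow_self p hi.ne').trans hpi
      have hpm : ¬ p ∣ m := by
        intro h
        have h1 := Nat.dvd_gcd h hpo
        rw [Nat.coprime_iff_gcd_eq_one.1 hm] at h1
        exact hp.one_lt.ne' (Nat.dvd_one.1 h1)
      have h1 := hk p (Nat.mem_primeFactors.2 ⟨hp, hpo.trans ho, hN⟩)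
      simp only [if_neg hpm] at h1
      exact h1.of_dvd (pow_dvd_pow p ((hp.pow_dvd_iff_le_factorization hN).1 (hpi.trans ho)))

theorem isConj_prod {G H : Type} [Group G] [Group H] {a b : G} {c d : H} (h1 : IsConj a b)
    (h2 : IsConj c d) : IsConj ((a, c) : G × H) (b, d) := by
  obtain ⟨u, hu⟩ := isConj_iff.1 h1
  obtain ⟨v, hv⟩ := isConj_iff.1 h2
  exact isConj_iff.2 ⟨(u, v), Prod.ext hu hv⟩

/-- The integer `m` can be replaced by a natural number which is prime to the order of `H`. -/
theorem replace {G H : Type} [Group G] [Group H] [Finite G] [Finite H] (m : ℤ) :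
    ∃ k : ℕ, Nat.Coprime k (Nat.card H) ∧ ∀ x y : G, zpowers y = zpowers x →
      IsConj y (x ^ m) → IsConj y (x ^ k) := by
  have hN : Nat.card G * Nat.card H ≠ 0 := mul_ne_zero Nat.card_pos.ne' Nat.card_pos.ne'
  obtain ⟨a, ha⟩ : ∃ a : ℕ, (a : ℤ) = m % (Nat.card G : ℤ) :=
    ⟨_, Int.toNat_of_nonneg (Int.emod_nonneg _ (by exact_mod_cast Nat.card_pos.ne'))⟩
  have hx : ∀ x : G, x ^ m = x ^ a := by
    intro x
    rw [← zpow_natCast x a, ha]
    apply (zpow_eq_zpow_iff_modEq).2
    have h1 : (orderOf x : ℤ) ∣ (Nat.card G : ℤ) := by exact_mod_cast orderOf_dvd_natCard x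
    exact ((Int.mod_modEq m _).of_dvd h1).symm
  obtain ⟨k, hk1, hk2⟩ := fix _ hN a
  refine ⟨k, hk1.coprime_dvd_right (dvd_mul_left _ _), fun x y hxy h => ?_⟩
  rw [hx] at h
  have h1 : orderOf (x ^ a) = orderOf x := by
    have h2 : orderOf y = orderOf (x ^ a) := by
      obtain ⟨c, hc⟩ := isConj_iff.1 h
      rw [← hc]
      exact (orderOf_injective (MulAut.conj c).toMonoidHom (MulAut.conj c).injective y).symm
    rw [← h2, ← Nat.card_zpowers, hxy, Nat.card_zpowers]
  rw [orderOf_pow] at h1
  have h3 : Nat.Coprime a (orderOf x) :=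
    Nat.Coprime.symm ((Nat.div_eq_self.1 h1).resolve_left (orderOf_pos x).ne')
  have h4 : x ^ k = x ^ a := pow_eq_pow_iff_modEq.2
    (hk2 _ ((orderOf_dvd_natCard x).trans (dvd_mul_right _ _)) h3)
  rwa [h4]

/-- the two alternatives in a product with a rational group -/
theorem alt {G H : Type} [Group G] [Group H] [Finite G] [Finite H] (hH : Rational H) {k : ℕ}
    (hk : Nat.Coprime k (Nat.card H)) {x y : G × H} (hxy : zpowers y = zpowers x)
    (h : IsConj y.1 x.1 ∨ IsConj y.1 (x.1 ^ k)) : IsConj y x ∨ IsConj y (x ^ (k : ℤ)) := by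
  obtain ⟨j, rfl, hj⟩ := gen hxy
  have h2 : Nat.Coprime j (orderOf x.2) := hj.coprime_dvd_right (by
    rw [Prod.orderOf]
    exact Nat.dvd_lcm_right _ _)
  have h3 : IsConj (x.2 ^ j) x.2 := hH _ _ (gen' h2)
  rcases h with h | h
  · exact Or.inl (isConj_prod h h3)
  · right
    rw [zpow_natCast]
    have h4 : IsConj (x.2 ^ k) x.2 :=
      hH _ _ (gen' (hk.coprime_dvd_right (orderOf_dvd_natCard x.2)))
    exact isConj_prod h (h3.trans h4.symm)

theorem fst_zpowers {G H : Type} [Group G] [Group H] [Finite G] [Finite H] {x y : G × H}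
    (hxy : zpowers y = zpowers x) : zpowers y.1 = zpowers x.1 := by
  have := congrArg (Subgroup.map (MonoidHom.fst G H)) hxy
  rwa [MonoidHom.map_zpowers, MonoidHom.map_zpowers] at this

theorem usr_prod {G H : Type} [Group G] [Group H] [Finite G] [Finite H]
    (hG : UniformlySemiRational G) (hH : Rational H) : UniformlySemiRational (G × H) := by
  obtain ⟨m, hm⟩ := hG
  obtain ⟨k, hk1, hk2⟩ := replace (G := G) (H := H) m
  refine ⟨k, fun x y hxy => alt hH hk1 hxy ?_⟩
  have h1 := fst_zpowers hxy
  rcases hm _ _ h1 with h | h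
  · exact Or.inl h
  · exact Or.inr (hk2 _ _ h1 h)

theorem sr_prod {G H : Type} [Group G] [Group H] [Finite G] [Finite H]
    (hG : SemiRational G) (hH : Rational H) : SemiRational (G × H) := by
  intro x
  obtain ⟨m, hm⟩ := hG x.1
  obtain ⟨k, hk1, hk2⟩ := replace (G := G) (H := H) m
  refine ⟨k, fun y hxy => alt hH hk1 hxy ?_⟩
  have h1 := fst_zpowers hxy
  rcases hm _ h1 with h | h
  · exact Or.inl h
  · exact Or.inr (hk2 _ _ h1 h)

/-- semi-rationality passes to quotients of finite `p`-groups -/
theorem sr_quot {p : ℕ} (hp : p.Prime) {G H : Type} [Group G] [Group H] [Finite G] [Finite H]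
    (hG : IsPGroup p G) (f : G →* H) (hf : Function.Surjective f) (h : SemiRational G) :
    SemiRational H := by
  intro x'
  obtain ⟨x, rfl⟩ := hf x'
  obtain ⟨m, hm⟩ := h x
  refine ⟨m, fun y' hy' => ?_⟩
  obtain ⟨j, rfl, hj⟩ := gen hy'
  by_cases h1 : f x = 1
  · left
    rw [h1, one_pow]
  · -- `p` divides the order of `f x`, and so it does not divide `j`
    have hpj : Nat.Coprime j p := by
      have : Fact p.Prime := ⟨hp⟩
      obtain ⟨n, hn⟩ := IsPGroup.iff_orderOf.1 hG x
      have h2 : orderOf (f x) ∣ p ^ n := hn ▸ orderOf_map_dvd f x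
      obtain ⟨i, -, hi⟩ := (Nat.dvd_prime_pow hp).1 h2
      have hi0 : i ≠ 0 := by
        rintro rfl
        rw [pow_zero, orderOf_eq_one_iff] at hi
        exact h1 hi
      rw [hi] at hj
      exact hj.coprime_dvd_right (dvd_pow_self p hi0)
    have hjx : Nat.Coprime j (orderOf x) := by
      have : Fact p.Prime := ⟨hp⟩
      obtain ⟨n, hn⟩ := IsPGroup.iff_orderOf.1 hG x
      rw [hn]
      exact hpj.pow_right n
    rcases hm (x ^ j) (gen' hjx) with h2 | h2
    · left
      have h3 := MonoidHom.map_isConj f h2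
      rwa [map_pow] at h3
    · right
      have h3 := MonoidHom.map_isConj f h2
      rwa [map_pow, map_zpow] at h3

/-- no Sylow subgroup of the product is semi-rational -/
theorem not_sr_prod {p : ℕ} (hp : p.Prime) {G H : Type} [Group G] [Group H] [Finite G] [Finite H]
    (P : Sylow p G) (hP : ¬ SemiRational P) (Q : Sylow p (G × H)) : ¬ SemiRational Q := by
  have : Fact p.Prime := ⟨hp⟩
  intro hQ
  have hs : Function.Surjective (MonoidHom.fst G H) := fun x => ⟨(x, 1), rfl⟩
  apply hP
  -- the image of `Q` in `G` is a Sylow subgroup, hence isomorphic to `P`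
  let R : Sylow p G := Q.mapSurjective hs
  have e : R ≃* P := Sylow.equiv R P
  let g : Q →* R := (MonoidHom.fst G H).subgroupMap (Q : Subgroup (G × H))
  have hg : Function.Surjective g := MonoidHom.subgroupMap_surjective _ _
  exact sr_quot hp Q.2 (e.toMonoidHom.comp g) (e.surjective.comp hg) hQ

/-- **Main theorem.**
(1) For `p = 2` and for `p = 3`, every finite group `K` embeds in a finite group `G` which is
uniformly semi-rational (and semi-rational) and none of whose Sylow `p`-subgroups is semi-rational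
(or uniformly semi-rational).
(2) Let `p` be a prime, let `G` be a finite group with a Sylow `p`-subgroup that is not semi-rational,
and let `H` be a finite rational group. If `G` is semi-rational then so is `G × H`; if `G` is
uniformly semi-rational then so is `G × H`; and no Sylow `p`-subgroup of `G × H` is
semi-rational. -/
theorem result :
    (∀ p : ℕ, p = 2 ∨ p = 3 → ∀ (K : Type) [Group K] [Finite K],
      ∃ (G : Type) (_ : Group G) (_ : Finite G), (∃ f : K →* G, Function.Injective f) ∧
        UniformlySemiRational G ∧ SemiRational G ∧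
        ∀ P : Sylow p G, ¬ SemiRational P ∧ ¬ UniformlySemiRational P) ∧
    ∀ p : ℕ, p.Prime → ∀ (G H : Type) [Group G] [Group H] [Finite G] [Finite H],
      (∃ P : Sylow p G, ¬ SemiRational P) → Rational H →
      (SemiRational G → SemiRational (G × H)) ∧
      (UniformlySemiRational G → UniformlySemiRational (G × H)) ∧
      ∀ P : Sylow p (G × H), ¬ SemiRational P := by
  have key : ∀ p : ℕ, p.Prime → ∀ (G : Type) [Group G] [Finite G], UniformlySemiRational G →
      (∃ P : Sylow p G, ¬ SemiRational P) → ∀ (K : Type) [Group K] [Finite K],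
      ∃ (G : Type) (_ : Group G) (_ : Finite G), (∃ f : K →* G, Function.Injective f) ∧
        UniformlySemiRational G ∧ SemiRational G ∧
        ∀ P : Sylow p G, ¬ SemiRational P ∧ ¬ UniformlySemiRational P := by
    intro p hp G _ _ hG ⟨P, hP⟩ K _ _
    have hu : UniformlySemiRational (G × Perm K) := usr_prod hG (rational_perm K)
    refine ⟨G × Perm K, inferInstance, inferInstance,
      ⟨(MonoidHom.inr G (Perm K)).comp (MulAction.toPermHom K K), ?_⟩, hu, hu.semiRational,
      fun Q => ⟨not_sr_prod hp P hP Q, fun h => not_sr_prod hp P hP Q h.semiRational⟩⟩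
    intro a b hab
    have h1 : MulAction.toPermHom K K a = MulAction.toPermHom K K b := congrArg Prod.snd hab
    exact MulAction.toPerm_injective h1
  refine ⟨?_, ?_⟩
  · rintro p (rfl | rfl)
    · obtain ⟨G, hg, hf, h1, h2, P, h3, h4⟩ := SylowTwo.result
      exact key 2 Nat.prime_two G h2 ⟨P, h3⟩
    · obtain ⟨G, hg, hf, h1, h2, P, h3, h4⟩ := SylowThree.result
      exact key 3 Nat.prime_three G h1 ⟨P, h3⟩
  · intro p hp G H _ _ _ _ ⟨P, hP⟩ hH
    exact ⟨fun h => sr_prod h hH, fun h => usr_prod h hH, not_sr_prod hp P hP⟩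

end Pool.Agent.Results.MP_a5b85f_al.EveryFiniteGroup
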